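import Pool.Agent.Q90.ZsDefs
import Pool.Agent.Q90.ZsRep

/-!
A simple C*-algebra which is not a `Z*`-algebra, although no operator in the image of any of its
representations is injective.
-/

set_option autoImplicit false

namespace Pool.Agent.Results.MP_098288_an.SimpleNotZStar

open Q90.ZS

universe u

/-- There is a simple C*-algebra `A` which is not a `Z*`-algebra, such that for every
representation `π` of `A` on a nonzero Hilbert space no operator `π(a)` is injective. -/
theorem result :
    ∃ (A : Type) (_ : NonUnitalCStarAlgebra A),
      IsSimple A ∧ ¬ IsZStarAlgebra A ∧ NoInjectiveOperators.{u} A :=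
  ⟨AT, inferInstance, simple_AT, not_zstar, noInjective_AT⟩

end Pool.Agent.Results.MP_098288_an.SimpleNotZStar
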